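import Pool.Agent.Helper19.SQ.MainD

/-!
MP_bb32d1_al: the dimension of the centre of the small quantum group `u_q(sl_n)`.
-/

namespace Pool.Agent.Results.MP_bb32d1_al.CenterDimension

open Pool.Agent.Helper19.SQ

/-- Let `n ≥ 2`, `l ≥ n + 2` odd and prime to `n` (for instance a prime `l > n + 1`), and `q` a
primitive `l`-th root of unity.  The small quantum group `U = u_q(sl_n)` exists, its dimension is
`l ^ (n ^ 2 - 1)`, and the dimension of its centre is
`binomial((n + 1) l, n) / ((n + 1) l)`. -/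
theorem result :
    ∀ (n l : ℕ), 2 ≤ n → Odd l → n + 2 ≤ l → Nat.Coprime n l → ∀ q : ℂ,
      IsPrimitiveRoot q l →
      (∃ (U : Type) (_ : Ring U) (_ : Algebra ℂ U) (E F K : Fin (n - 1) → U),
        IsUq (n - 1) l q U E F K) ∧
      ∀ (U : Type) [Ring U] [Algebra ℂ U] (E F K : Fin (n - 1) → U),
        IsUq (n - 1) l q U E F K →
        FiniteDimensional ℂ U ∧ Module.finrank ℂ U = l ^ (n ^ 2 - 1) ∧
        (Module.finrank ℂ (Subalgebra.center ℂ U) : ℚ) =
          1 / ((n + 1) * l) * Nat.choose ((n + 1) * l) n := by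
  intro n l hn hodd hl hcop q hq
  obtain ⟨N, rfl⟩ : ∃ N, n = N + 1 := ⟨n - 1, by omega⟩
  haveI : NeZero l := ⟨by omega⟩
  have hN : 1 ≤ N := by omega
  have hP : Par N l q := ⟨hN, hodd, by omega, hq⟩
  refine ⟨⟨Usl N l q, inferInstance, inferInstance, _, _, _, isUq_Usl N l q⟩, ?_⟩
  intro U _ _ E F K hU
  change IsUq N l q U E F K at hU
  refine ⟨hU.finiteDimensional hP hcop, ?_, ?_⟩
  · obtain ⟨e, -, -, -⟩ := hU.exists_equiv
    rw [LinearEquiv.finrank_eq e.toLinearEquiv, Pool.Agent.Helper19.SQD.dim_Usl N l q hP hcop]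
    congr 1
    have h : (N + 1) ^ 2 = N * (N + 2) + 1 := by ring
    omega
  · have h := centerMain N l hN hodd (by omega) hcop q hq
    rw [← hU.finrank_center] at h
    have h2 : (((N + 2) * l * Module.finrank ℂ (Subalgebra.center ℂ U) : ℕ) : ℚ) =
        ((Nat.choose ((N + 2) * l) (N + 1) : ℕ) : ℚ) := by rw [h]
    push_cast at h2
    have h3 : ((N : ℚ) + 2) * l ≠ 0 := by
      have : (l : ℚ) ≠ 0 := Nat.cast_ne_zero.2 (NeZero.ne l)
      positivity
    have h4 : N + 1 + 1 = N + 2 := rfl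
    rw [h4, ← h2]
    push_cast
    have h5 : ((N : ℚ) + 1 + 1) = (N : ℚ) + 2 := by ring
    rw [h5, one_div, inv_mul_cancel_left₀ h3]

end Pool.Agent.Results.MP_bb32d1_al.CenterDimension
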